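import Mathlib
import Pool.Agent.Helper45.MalcevMain
import Pool.Agent.Helper111.EN.NS

/-!
Virtually nilpotent groups: common right multiples of positive words, the maximal condition,
and the finite basis lemma for families of relations `u D v⁻¹ = D'`.
-/

set_option autoImplicit false

namespace Pool.Agent.H687R3.MC

open Pool.Agent.Helper45 Subgroup

universe u

/-! ### Malcev words -/

/-- the Malcev sequence of a pair of group elements -/
def gx {K : Type*} [Group K] (x y : K) : ℕ → K × K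
  | 0 => (x, y)
  | k + 1 => ((gx x y k).1 * (gx x y k).2, (gx x y k).2 * (gx x y k).1)

lemma gx_map {K K' : Type*} [Group K] [Group K'] (f : K →* K') (x y : K) (k : ℕ) :
    gx (f x) (f y) k = (f (gx x y k).1, f (gx x y k).2) := by
  induction k with
  | zero => rfl
  | succ k ih => simp [gx, ih]

lemma gx_eq_succ {K : Type*} [Group K] (x y : K) (k : ℕ) (h : (gx x y k).1 = (gx x y k).2) :
    (gx x y (k + 1)).1 = (gx x y (k + 1)).2 := by
  simp [gx, h]

theorem gx_nilpotent (K : Type u) [Group K] [Group.IsNilpotent K] :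
    ∃ c, ∀ x y : K, (gx x y c).1 = (gx x y c).2 := by
  refine Group.nilpotent_center_quotient_ind
    (P := fun K _ _ => ∃ c, ∀ x y : K, (gx x y c).1 = (gx x y c).2) K ?_ ?_
  · intro K _ _
    exact ⟨0, fun x y => Subsingleton.elim _ _⟩
  · intro K _ _ ih
    obtain ⟨c, hc⟩ := ih
    refine ⟨c + 1, fun x y => ?_⟩
    have h := hc (QuotientGroup.mk' (center K) x) (QuotientGroup.mk' (center K) y)
    rw [gx_map] at h
    have h2 : (gx x y c).1⁻¹ * (gx x y c).2 ∈ center K := by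
      rw [← QuotientGroup.eq]; exact h
    have h3 := Subgroup.mem_center_iff.1 h2
    simp only [gx]
    have e : (gx x y c).2 = (gx x y c).1 * ((gx x y c).1⁻¹ * (gx x y c).2) := by group
    set z := (gx x y c).1⁻¹ * (gx x y c).2 with hz
    set p := (gx x y c).1 with hp
    rw [e]
    rw [mul_assoc p z p, ← h3 p]

/-- the Malcev sequence of a pair of words -/
def mx {A : Type*} (s t : List A) : ℕ → List A × List A
  | 0 => (s, t)
  | k + 1 => ((mx s t k).1 ++ (mx s t k).2, (mx s t k).2 ++ (mx s t k).1)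

lemma mx_prefix {A : Type*} (s t : List A) (k : ℕ) :
    (∃ p, (mx s t k).1 = s ++ p) ∧ (∃ q, (mx s t k).2 = t ++ q) := by
  induction k with
  | zero => exact ⟨⟨[], by simp [mx]⟩, ⟨[], by simp [mx]⟩⟩
  | succ k ih =>
    obtain ⟨⟨p, hp⟩, ⟨q, hq⟩⟩ := ih
    refine ⟨⟨p ++ (mx s t k).2, ?_⟩, ⟨q ++ (mx s t k).1, ?_⟩⟩
    · simp [mx, hp]
    · simp [mx, hq]

lemma val_mx {A : Type*} {G : Type*} [Group G] (b : A → G) (s t : List A) (k : ℕ) :
    gx (val b s) (val b t) k = (val b (mx s t k).1, val b (mx s t k).2) := by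
  induction k with
  | zero => rfl
  | succ k ih => simp [gx, mx, ih]

lemma val_replicate {A : Type*} {G : Type*} [Group G] (b : A → G) (s : List A) (k : ℕ) :
    val b (List.replicate k s).flatten = val b s ^ k := by
  induction k with
  | zero => simp
  | succ k ih => rw [List.replicate_succ, List.flatten_cons, val_append, ih, pow_succ']

/-- virtual nilpotency -/
def VN (G : Type u) [Group G] : Prop := ∃ K : Subgroup G, K.FiniteIndex ∧ Group.IsNilpotent K

/-- common right multiples -/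
theorem ore_of_VN {A : Type*} {G : Type u} [Group G] (hG : VN G) (b : A → G) (s t : List A) :
    ∃ p q : List A, val b (s ++ p) = val b (t ++ q) := by
  obtain ⟨K, hK, hn⟩ := hG
  obtain ⟨k, hk, -, hks⟩ := Subgroup.exists_pow_mem_of_index_ne_zero
    (Subgroup.FiniteIndex.index_ne_zero (H := K)) (val b s)
  obtain ⟨l, hl, -, hlt⟩ := Subgroup.exists_pow_mem_of_index_ne_zero
    (Subgroup.FiniteIndex.index_ne_zero (H := K)) (val b t)
  obtain ⟨c, hc⟩ := gx_nilpotent K
  have h1 := hc ⟨_, hks⟩ ⟨_, hlt⟩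
  have h2 := gx_map K.subtype ⟨_, hks⟩ ⟨_, hlt⟩ c
  simp only [Subgroup.coe_subtype] at h2
  have h3 : (gx (val b s ^ k) (val b t ^ l) c).1 = (gx (val b s ^ k) (val b t ^ l) c).2 := by
    rw [h2]; exact congrArg Subtype.val h1
  rw [← val_replicate, ← val_replicate, val_mx] at h3
  obtain ⟨⟨p, hp⟩, ⟨q, hq⟩⟩ := mx_prefix (List.replicate k s).flatten
    (List.replicate l t).flatten c
  simp only at h3
  obtain ⟨k', rfl⟩ : ∃ k', k = k' + 1 := ⟨k - 1, by omega⟩
  obtain ⟨l', rfl⟩ : ∃ l', l = l' + 1 := ⟨l - 1, by omega⟩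
  refine ⟨(List.replicate k' s).flatten ++ p, (List.replicate l' t).flatten ++ q, ?_⟩
  rw [← List.append_assoc, ← List.append_assoc, ← List.flatten_cons, ← List.flatten_cons,
    ← List.replicate_succ, ← List.replicate_succ, ← hp, ← hq, h3]

/-- With common right multiples every relation between the generators is a consequence of the
positive ones. -/
theorem ker_le {A : Type*} {G : Type*} [Group G] (b : A → G)
    (ore : ∀ s t : List A, ∃ p q : List A, val b (s ++ p) = val b (t ++ q))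
    (x : FreeGroup A) (hx : FreeGroup.lift b x = 1) : x ∈ normalClosure (Rel b) := by
  set Q := QuotientGroup.mk' (normalClosure (Rel b)) with hQ
  have key : ∀ y : FreeGroup A, ∃ s t : List A, Q y = Q (pos s) * (Q (pos t))⁻¹ := by
    intro y
    have hy : y ∈ closure (Set.range (FreeGroup.of : A → FreeGroup A)) := by
      rw [FreeGroup.closure_range_of]; trivial
    induction hy using Subgroup.closure_induction_right with
    | one => exact ⟨[], [], by simp⟩
    | mul_right y _ z hz ih =>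
      obtain ⟨i, rfl⟩ := hz
      obtain ⟨s, t, hst⟩ := ih
      obtain ⟨p, q, hpq⟩ := ore [i] t
      have h1 := q_eq b hpq
      rw [← hQ, pos_append, pos_append, map_mul, map_mul, pos_cons, pos_nil, mul_one] at h1
      refine ⟨s ++ q, p, ?_⟩
      rw [map_mul, hst, pos_append, map_mul]
      have h2 : (Q (pos t))⁻¹ * Q (FreeGroup.of i) = Q (pos q) * (Q (pos p))⁻¹ := by
        rw [inv_mul_eq_iff_eq_mul, ← mul_assoc, ← h1]; group
      rw [mul_assoc, h2, mul_assoc]
    | mul_inv_cancel y _ z hz ih =>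
      obtain ⟨i, rfl⟩ := hz
      obtain ⟨s, t, hst⟩ := ih
      refine ⟨s, i :: t, ?_⟩
      rw [map_mul, hst, pos_cons, map_mul, map_inv]
      group
  obtain ⟨s, t, hst⟩ := key x
  have hle : normalClosure (Rel b) ≤ (FreeGroup.lift b).ker := by
    apply normalClosure_le_normal
    rintro r ⟨u, v, -, -, huv, rfl⟩
    show FreeGroup.lift b _ = 1
    simp [huv]
  have h1 : x⁻¹ * (pos s * (pos t)⁻¹) ∈ normalClosure (Rel b) := by
    rw [← QuotientGroup.eq]
    show Q x = Q (pos s * (pos t)⁻¹)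
    rw [hst, map_mul, map_inv]
  have h2 : FreeGroup.lift b (x⁻¹ * (pos s * (pos t)⁻¹)) = 1 := hle h1
  simp only [map_mul, map_inv, lift_pos, hx] at h2
  have h3 : val b s = val b t := by
    have : val b s * (val b t)⁻¹ = 1 := by simpa using h2
    exact mul_inv_eq_one.1 this
  have h4 := q_eq b h3
  rw [← hQ] at h4
  refine (QuotientGroup.eq_one_iff _).1 ?_
  show Q x = 1
  rw [hst, h4, mul_inv_cancel]

/-! ### the maximal condition -/

open Pool.Agent.Helper111.EN.NSc

lemma NS_of_finite (G : Type*) [Group G] [Finite G] : NS (⊤ : Subgroup G) := by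
  intro K _
  have : Finite K := inferInstance
  have : Group.FG K := inferInstance
  exact (Group.fg_iff_subgroup_fg K).1 inferInstance

theorem NS_of_VN {G : Type u} [Group G] (hG : VN G) (hfg : Group.FG G) :
    NS (⊤ : Subgroup G) := by
  obtain ⟨K, hK, hn⟩ := hG
  have : K.normalCore.FiniteIndex := inferInstance
  have : Group.IsNilpotent (K.normalCore.subgroupOf K) := inferInstance
  have : Group.IsNilpotent K.normalCore :=
    Group.nilpotent_of_mulEquiv (Subgroup.subgroupOfEquivOfLe K.normalCore_le)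
  have : Finite (G ⧸ K.normalCore) := Subgroup.finite_quotient_of_finiteIndex
  have hNfg : Group.FG K.normalCore := Subgroup.fg_of_index_ne_zero K.normalCore
  refine NS_ext (QuotientGroup.mk' K.normalCore) ⊤ ((NS_of_finite _).mono le_top) ?_
  rw [QuotientGroup.ker_mk', top_inf_eq]
  exact NS_of_nilpotent_fg K.normalCore inferInstance ((Group.fg_iff_subgroup_fg _).1 hNfg)

lemma NS_prod {P : Type*} [Group P] (h : NS (⊤ : Subgroup P)) : NS (⊤ : Subgroup (P × P)) := by
  refine NS_ext (MonoidHom.fst P P) ⊤ (h.mono le_top) ?_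
  have : (⊤ : Subgroup (P × P)) ⊓ (MonoidHom.fst P P).ker =
      (⊤ : Subgroup P).map (MonoidHom.inr P P) := by
    ext ⟨x, y⟩
    simp only [top_inf_eq, MonoidHom.mem_ker, MonoidHom.coe_fst, Subgroup.mem_map,
      Subgroup.mem_top, true_and, MonoidHom.inr_apply]
    constructor
    · intro hx
      exact ⟨y, by rw [hx]⟩
    · rintro ⟨z, hz⟩
      exact (congrArg Prod.fst hz).symm
  rw [this]
  exact h.map _

lemma VN_subgroup {G : Type u} [Group G] (hG : VN G) (P : Subgroup G) : VN P := by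
  obtain ⟨K, hK, hn⟩ := hG
  refine ⟨K.subgroupOf P, inferInstance, ?_⟩
  have e : Group.IsNilpotent (P.subgroupOf K) := inferInstance
  have e1 : (K.subgroupOf P) ≃* (P.subgroupOf K) := by
    refine ((K.subgroupOf P).equivMapOfInjective P.subtype P.subtype_injective).trans ?_
    refine MulEquiv.trans (MulEquiv.subgroupCongr ?_)
      ((P.subgroupOf K).equivMapOfInjective K.subtype K.subtype_injective).symm
    rw [Subgroup.subgroupOf_map_subtype, Subgroup.subgroupOf_map_subtype, inf_comm]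
  exact Group.nilpotent_of_mulEquiv e1.symm

theorem NS_range_prod {G : Type u} [Group G] (hG : VN G) {m : ℕ} (φ : FreeGroup (Fin m) →* G) :
    NS (φ.range.prod φ.range) := by
  have hP : VN φ.range := VN_subgroup hG _
  have hfg : Group.FG φ.range := Group.fg_of_surjective φ.rangeRestrict_surjective
  have h1 := NS_prod (NS_of_VN hP hfg)
  have h2 := h1.map (φ.range.subtype.prodMap φ.range.subtype)
  refine h2.mono ?_
  rintro ⟨x, y⟩ ⟨hx, hy⟩
  exact ⟨(⟨x, hx⟩, ⟨y, hy⟩), trivial, rfl⟩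

lemma exists_finite_closure {G : Type*} [Group G] (T : Set G) (h : (closure T).FG) :
    ∃ T₀ ⊆ T, T₀.Finite ∧ closure T₀ = closure T := by
  classical
  have h1 : ∀ x ∈ closure T, ∃ T₀ ⊆ T, T₀.Finite ∧ x ∈ closure T₀ := by
    intro x hx
    induction hx using Subgroup.closure_induction with
    | mem y hy => exact ⟨{y}, by simpa using hy, Set.finite_singleton y, subset_closure rfl⟩
    | one => exact ⟨∅, Set.empty_subset _, Set.finite_empty, one_mem _⟩
    | mul y z _ _ hy hz =>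
      obtain ⟨T₁, a1, f1, m1⟩ := hy
      obtain ⟨T₂, a2, f2, m2⟩ := hz
      exact ⟨T₁ ∪ T₂, Set.union_subset a1 a2, f1.union f2,
        mul_mem (Subgroup.closure_mono Set.subset_union_left m1)
          (Subgroup.closure_mono Set.subset_union_right m2)⟩
    | inv y _ hy =>
      obtain ⟨T₁, a1, f1, m1⟩ := hy
      exact ⟨T₁, a1, f1, inv_mem m1⟩
  obtain ⟨S, hS⟩ := h
  have hS' : ∀ s ∈ S, s ∈ closure T := fun s hs => by rw [← hS]; exact subset_closure hs
  choose! f hf1 hf2 hf3 using h1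
  refine ⟨⋃ s ∈ S, f s, ?_, ?_, ?_⟩
  · intro x hx
    simp only [Set.mem_iUnion] at hx
    obtain ⟨s, hs, hx⟩ := hx
    exact hf1 s (hS' s hs) hx
  · exact S.finite_toSet.biUnion (fun s hs => hf2 s (hS' s hs))
  · apply le_antisymm
    · apply Subgroup.closure_mono
      intro x hx
      simp only [Set.mem_iUnion] at hx
      obtain ⟨s, hs, hx⟩ := hx
      exact hf1 s (hS' s hs) hx
    · rw [← hS, closure_le]
      intro s hs
      refine Subgroup.closure_mono ?_ (hf3 s (hS' s hs))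
      intro x hx
      simp only [Set.mem_iUnion]
      exact ⟨s, hs, hx⟩

/-- **Finite basis lemma.** -/
theorem finite_basis {A : Type*} {G : Type u} [Group G] (N : Subgroup (FreeGroup A)) {m : ℕ}
    (e : FreeGroup (Fin m) →* FreeGroup A) (φ : FreeGroup (Fin m) →* G)
    (hNS : NS (φ.range.prod φ.range)) (D D' : FreeGroup A) :
    ∃ E : Set (FreeGroup A), E.Finite ∧ E ⊆ N ∧
      ∀ (M : Subgroup (FreeGroup A)) [M.Normal], E ⊆ M → (∀ x, φ x = 1 → e x ∈ M) →
        ∀ u v : FreeGroup (Fin m), e u * D * (e v)⁻¹ * D'⁻¹ ∈ N →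
          e u * D * (e v)⁻¹ * D'⁻¹ ∈ M := by
  classical
  let S : Set (FreeGroup (Fin m) × FreeGroup (Fin m)) :=
    {p | e p.1 * D * (e p.2)⁻¹ * D'⁻¹ ∈ N}
  rcases S.eq_empty_or_nonempty with hS | ⟨⟨u₁, v₁⟩, h₁⟩
  · refine ⟨∅, Set.finite_empty, Set.empty_subset _, ?_⟩
    intro M _ _ _ u v huv
    have : (u, v) ∈ S := huv
    rw [hS] at this
    exact this.elim
  let δ : FreeGroup (Fin m) × FreeGroup (Fin m) → FreeGroup (Fin m) × FreeGroup (Fin m) :=
    fun p => (u₁⁻¹ * p.1, v₁⁻¹ * p.2)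
  let Φ : FreeGroup (Fin m) × FreeGroup (Fin m) →* G × G := φ.prodMap φ
  have hTle : closure (Φ '' (δ '' S)) ≤ φ.range.prod φ.range := by
    rw [closure_le]
    rintro _ ⟨_, ⟨p, -, rfl⟩, rfl⟩
    exact ⟨⟨_, rfl⟩, ⟨_, rfl⟩⟩
  obtain ⟨T₀, hT₀, hT₀f, hT₀c⟩ := exists_finite_closure _ (hNS _ hTle)
  have hT₀' : ∀ t ∈ T₀, ∃ p ∈ S, Φ (δ p) = t := by
    intro t ht
    obtain ⟨_, ⟨p, hp, rfl⟩, rfl⟩ := hT₀ ht
    exact ⟨p, hp, rfl⟩
  choose! c hc1 hc2 using hT₀'
  let S₀ : Set (FreeGroup (Fin m) × FreeGroup (Fin m)) := insert (u₁, v₁) (c '' T₀)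
  have hS₀f : S₀.Finite := (hT₀f.image c).insert _
  have hS₀ : S₀ ⊆ S := by
    rintro p (rfl | ⟨t, ht, rfl⟩)
    · exact h₁
    · exact hc1 t ht
  refine ⟨(fun p => e p.1 * D * (e p.2)⁻¹ * D'⁻¹) '' S₀, hS₀f.image _, ?_, ?_⟩
  · rintro _ ⟨p, hp, rfl⟩
    exact hS₀ hp
  intro M _ hE hker u v huv
  set q := QuotientGroup.mk' M with hq
  have hq1 : ∀ x, q x = 1 ↔ x ∈ M := fun x => QuotientGroup.eq_one_iff x
  let f₁ : FreeGroup (Fin m) × FreeGroup (Fin m) →* FreeGroup A ⧸ M :=
    ((MulAut.conj (q D)⁻¹).toMonoidHom.comp (q.comp e)).comp (MonoidHom.fst _ _)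
  let f₂ : FreeGroup (Fin m) × FreeGroup (Fin m) →* FreeGroup A ⧸ M :=
    (q.comp e).comp (MonoidHom.snd _ _)
  have hf₁ : ∀ p, f₁ p = (q D)⁻¹ * q (e p.1) * q D := by
    intro p; simp [f₁]
  have hf₂ : ∀ p, f₂ p = q (e p.2) := fun p => rfl
  let H : Subgroup (FreeGroup (Fin m) × FreeGroup (Fin m)) := f₁.eqLocus f₂
  have hH : ∀ p, p ∈ H ↔ (q D)⁻¹ * q (e p.1) * q D = q (e p.2) := by
    intro p
    rw [← hf₁, ← hf₂]; rfl
  have hrel : ∀ p ∈ S₀, q (e p.1) * q D * (q (e p.2))⁻¹ = q D' := by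
    intro p hp
    have h1 := (hq1 _).2 (hE ⟨p, hp, rfl⟩)
    simp only [map_mul, map_inv] at h1
    exact mul_inv_eq_one.1 h1
  have hbase := hrel (u₁, v₁) (Or.inl rfl)
  simp only at hbase
  have hδ : ∀ p, (q (e p.1) * q D * (q (e p.2))⁻¹ = q D' ↔ δ p ∈ H) := by
    intro p
    rw [hH]
    simp only [δ, map_mul, map_inv]
    rw [← hbase]
    constructor
    · intro h
      have h2 : q (e p.1) * q D = q (e u₁) * q D * (q (e v₁))⁻¹ * q (e p.2) := by
        rw [← h]; group
      calc (q D)⁻¹ * ((q (e u₁))⁻¹ * q (e p.1)) * q D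
          = (q D)⁻¹ * (q (e u₁))⁻¹ * (q (e p.1) * q D) := by group
        _ = (q (e v₁))⁻¹ * q (e p.2) := by rw [h2]; group
    · intro h
      have h2 : q (e p.1) * q D =
          q (e u₁) * q D * ((q D)⁻¹ * ((q (e u₁))⁻¹ * q (e p.1)) * q D) := by group
      rw [h2, h]; group
  have hcl : closure (δ '' (c '' T₀)) ≤ H := by
    rw [closure_le]
    rintro _ ⟨p, hp, rfl⟩
    exact (hδ p).1 (hrel p (Or.inr hp))
  have hmem : Φ (δ (u, v)) ∈ closure (Φ '' (δ '' S)) :=
    subset_closure ⟨_, ⟨(u, v), huv, rfl⟩, rfl⟩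
  rw [← hT₀c] at hmem
  have hT₀eq : T₀ = Φ '' (δ '' (c '' T₀)) := by
    ext t
    constructor
    · intro ht
      exact ⟨_, ⟨_, ⟨t, ht, rfl⟩, rfl⟩, hc2 t ht⟩
    · rintro ⟨_, ⟨_, ⟨t', ht', rfl⟩, rfl⟩, rfl⟩
      rw [hc2 t' ht']; exact ht'
  rw [hT₀eq, ← MonoidHom.map_closure] at hmem
  obtain ⟨h, hh, hΦ⟩ := hmem
  have hhH : h ∈ H := hcl hh
  have hk : h⁻¹ * δ (u, v) ∈ H := by
    have hΦ1 : φ h.1 = φ (δ (u, v)).1 := congrArg Prod.fst hΦ
    have hΦ2 : φ h.2 = φ (δ (u, v)).2 := congrArg Prod.snd hΦ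
    rw [hH]
    have k1 : q (e (h⁻¹ * δ (u, v)).1) = 1 := by
      rw [hq1]; apply hker
      rw [Prod.fst_mul, Prod.fst_inv, map_mul, map_inv, hΦ1, inv_mul_cancel]
    have k2 : q (e (h⁻¹ * δ (u, v)).2) = 1 := by
      rw [hq1]; apply hker
      rw [Prod.snd_mul, Prod.snd_inv, map_mul, map_inv, hΦ2, inv_mul_cancel]
    rw [k1, k2]; group
  have hfin : δ (u, v) ∈ H := by
    have := H.mul_mem hhH hk
    rwa [mul_inv_cancel_left] at this
  have := (hδ (u, v)).2 hfin
  rw [← hq1, map_mul, map_mul, map_mul, map_inv, map_inv]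
  exact mul_inv_eq_one.2 this

end Pool.Agent.H687R3.MC
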