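import Mathlib
import Pool.Agent.H687R3.MC.Nil
import Pool.Agent.Helper45.MalcevNegB

/-!
Normal forms in the free product of a free monoid and a group, and the synchronous reading of
two words over a finite set of elements.
-/

set_option autoImplicit false

namespace Pool.Agent.H687R3.MC

open Monoid Pool.Agent.Helper45

universe u v

section NF

variable (X : Type u) (G : Type v) [Group G]

/-- normal forms -/
abbrev NFo := G × List (X × G)

variable {X G}

def gact (g : G) (m : NFo X G) : NFo X G := (g * m.1, m.2)

def xact (x : X) (m : NFo X G) : NFo X G := (1, (x, m.1) :: m.2)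

def lact : List (X × G) → NFo X G → NFo X G
  | [], m => m
  | p :: L, m => xact p.1 (gact p.2 (lact L m))

def gactHom : G →* Function.End (NFo X G) where
  toFun g := gact g
  map_one' := by
    funext m
    show gact 1 m = m
    simp [gact]
  map_mul' g h := by
    funext m
    show gact (g * h) m = gact g (gact h m)
    simp [gact, mul_assoc]

def xend (x : X) : Function.End (NFo X G) := fun m => xact x m

def act : Coprod (FreeMonoid X) G →* Function.End (NFo X G) :=
  Coprod.lift (FreeMonoid.lift xend) gactHom

def el : List (X × G) → Coprod (FreeMonoid X) G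
  | [] => 1
  | p :: L => Coprod.inl (FreeMonoid.of p.1) * Coprod.inr p.2 * el L

def ev (m : NFo X G) : Coprod (FreeMonoid X) G := Coprod.inr m.1 * el m.2

lemma act_inr (g : G) (m : NFo X G) : act (Coprod.inr g) m = gact g m := by
  simp only [act, Coprod.lift_apply_inr]
  rfl

lemma act_inl (x : X) (m : NFo X G) : act (Coprod.inl (FreeMonoid.of x)) m = xact x m := by
  simp only [act, Coprod.lift_apply_inl, FreeMonoid.lift_eval_of]
  rfl

lemma act_mul (p q : Coprod (FreeMonoid X) G) (m : NFo X G) :
    act (p * q) m = act p (act q m) := by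
  rw [map_mul]; rfl

lemma act_one (m : NFo X G) : act (1 : Coprod (FreeMonoid X) G) m = m := by
  rw [map_one]; rfl

lemma act_el (L : List (X × G)) (m : NFo X G) : act (el L) m = lact L m := by
  induction L with
  | nil => rw [el, act_one]; rfl
  | cons p L ih => rw [el, act_mul, act_mul, ih, act_inr, act_inl]; rfl

lemma act_ev (n m : NFo X G) : act (ev n) m = gact n.1 (lact n.2 m) := by
  rw [ev, act_mul, act_el, act_inr]

lemma ev_gact (g : G) (m : NFo X G) : ev (gact g m) = Coprod.inr g * ev m := by
  simp [ev, gact, mul_assoc]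

lemma ev_xact (x : X) (m : NFo X G) : ev (xact x m) = Coprod.inl (FreeMonoid.of x) * ev m := by
  simp [ev, xact, el, mul_assoc]

lemma ev_lact (L : List (X × G)) (m : NFo X G) : ev (lact L m) = el L * ev m := by
  induction L with
  | nil => simp [lact, el]
  | cons p L ih => rw [lact, ev_xact, ev_gact, ih, el]; simp only [mul_assoc]

lemma ev_act (p : Coprod (FreeMonoid X) G) : ∀ m : NFo X G, ev (act p m) = p * ev m := by
  induction p using Coprod.induction_on with
  | inl f =>
    induction f using FreeMonoid.inductionOn' with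
    | one => intro m; rw [map_one, act_one, one_mul]
    | of_mul x f ih => intro m; rw [map_mul, act_mul, act_inl, ev_xact, ih, mul_assoc]
  | inr g => intro m; rw [act_inr, ev_gact]
  | mul p q hp hq => intro m; rw [act_mul, hp, hq, mul_assoc]

/-- the normal form -/
def nf (p : Coprod (FreeMonoid X) G) : NFo X G := act p (1, [])

lemma ev_nf (p : Coprod (FreeMonoid X) G) : ev (nf p) = p := by
  rw [nf, ev_act]; simp [ev, el]

lemma nf_injective : Function.Injective (nf : Coprod (FreeMonoid X) G → NFo X G) := by
  intro p q h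
  rw [← ev_nf p, ← ev_nf q, h]

lemma lact_ne_nil (L : List (X × G)) (hL : L ≠ []) (m : NFo X G) : (lact L m).1 = 1 := by
  cases L with
  | nil => exact absurd rfl hL
  | cons p L => rfl

end NF

section Words

variable {X : Type u} {G : Type v} [Group G] {n : ℕ} (a : Fin n → Coprod (FreeMonoid X) G)

/-- the value of a word -/
def mv (l : List (Fin n)) : Coprod (FreeMonoid X) G := (l.map a).prod

@[simp] lemma mv_nil : mv a [] = 1 := rfl
@[simp] lemma mv_cons (i : Fin n) (l : List (Fin n)) : mv a (i :: l) = a i * mv a l := by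
  simp [mv]
@[simp] lemma mv_append (l m : List (Fin n)) : mv a (l ++ m) = mv a l * mv a m := by
  simp [mv]

/-- head and tail of the generators -/
def hd (i : Fin n) : G := (nf (a i)).1
def tl (i : Fin n) : List (X × G) := (nf (a i)).2

lemma a_eq (i : Fin n) : a i = Coprod.inr (hd a i) * el (tl a i) :=
  (ev_nf (a i)).symm

/-- the normal form of the value of a word -/
def nw (s : List (Fin n)) : NFo X G := nf (mv a s)

lemma nw_nil : nw a [] = (1, []) := by
  rw [nw, mv_nil, nf, act_one]

lemma nw_cons (i : Fin n) (s : List (Fin n)) :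
    nw a (i :: s) = gact (hd a i) (lact (tl a i) (nw a s)) := by
  rw [nw, mv_cons, nf, act_mul]
  conv_lhs => rw [← ev_nf (a i)]
  rw [act_ev]
  rfl

/-- positions inside generators -/
abbrev St := Option (Σ i : Fin n, Fin (tl a i).length)

/-- the piece of a generator before a position -/
def lp : St a → Coprod (FreeMonoid X) G
  | none => 1
  | some p => Coprod.inr (hd a p.1) * el ((tl a p.1).take p.2.1)

/-- the word `w` starts with a generator of which only the part after the position `τ` is
counted, and the rest has value `R` -/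
def Valid (τ : St a) (w : List (Fin n)) (R : List (X × G)) : Prop :=
  match τ with
  | none => w = [] ∧ R = []
  | some p => ∃ s, w = p.1 :: s ∧ lact ((tl a p.1).drop p.2.1) (nw a s) = (1, R)

lemma el_append (L L' : List (X × G)) : el (L ++ L') = el L * el L' := by
  induction L with
  | nil => simp [el]
  | cons p L ih => simp [el, ih, mul_assoc]

lemma Valid.mv_eq {τ : St a} {w : List (Fin n)} {R : List (X × G)} (h : Valid a τ w R) :
    mv a w = lp a τ * el R := by
  cases τ with
  | none =>
    obtain ⟨rfl, rfl⟩ := h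
    simp [lp, el]
  | some p =>
    obtain ⟨s, rfl, hs⟩ := h
    have h1 := congrArg ev hs
    rw [ev_lact, nw, ev_nf] at h1
    have h2 : ev ((1 : G), R) = el R := by simp [ev]
    rw [h2] at h1
    rw [mv_cons, a_eq a p.1, lp, ← h1]
    conv_lhs => rw [← List.take_append_drop p.2.1 (tl a p.1), el_append]
    simp only [mul_assoc]

/-- letters of length zero -/
def Zero (σ : List (Fin n)) : Prop := ∀ i ∈ σ, tl a i = []

lemma Valid.cons_iff {p : Σ i : Fin n, Fin (tl a i).length} {w : List (Fin n)}
    {R : List (X × G)} (h : Valid a (some p) w R) : R ≠ [] := by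
  obtain ⟨s, rfl, hs⟩ := h
  have h1 : (tl a p.1).drop p.2.1 ≠ [] := by
    intro h
    rw [List.drop_eq_nil_iff] at h
    exact absurd p.2.2 (not_lt.2 h)
  obtain ⟨c, L, hL⟩ := List.exists_cons_of_ne_nil h1
  rw [hL] at hs
  have := congrArg Prod.snd hs
  simp only [lact, xact] at this
  rw [← this]; simp

/-- start of the reading -/
lemma start (u : List (Fin n)) : ∃ (σ w : List (Fin n)) (τ : St a), Zero a σ ∧ u = σ ++ w ∧
    Valid a τ w (nw a u).2 ∧ mv a σ * lp a τ = Coprod.inr (nw a u).1 := by
  induction u with
  | nil =>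
    refine ⟨[], [], none, by simp [Zero], rfl, ⟨rfl, by rw [nw_nil]⟩, ?_⟩
    rw [nw_nil]; simp [lp]
  | cons i s ih =>
    rcases eq_or_ne (tl a i) [] with hi | hi
    · obtain ⟨σ, w, τ, h1, rfl, h2, h3⟩ := ih
      refine ⟨i :: σ, w, τ, ?_, rfl, ?_, ?_⟩
      · intro j hj
        rcases List.mem_cons.1 hj with rfl | hj
        · exact hi
        · exact h1 j hj
      · rw [nw_cons, hi]; exact h2
      · rw [nw_cons, hi, mv_cons, mul_assoc, h3, a_eq a i, hi]
        simp [el, lact, gact]
    · have hpos : 0 < (tl a i).length := List.length_pos_iff.2 hi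
      refine ⟨[], i :: s, some ⟨i, ⟨0, hpos⟩⟩, by simp [Zero], rfl, ?_, ?_⟩
      · refine ⟨s, rfl, ?_⟩
        rw [nw_cons]
        simp only [List.drop_zero, gact]
        have := lact_ne_nil (tl a i) hi (nw a s)
        exact Prod.ext this rfl
      · rw [nw_cons]
        have := lact_ne_nil (tl a i) hi (nw a s)
        simp [lp, el, gact, this]

/-- one step of the reading -/
lemma step (p : Σ i : Fin n, Fin (tl a i).length) (w : List (Fin n)) (x : X) (h : G)
    (R : List (X × G)) (hv : Valid a (some p) w ((x, h) :: R)) :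
    ∃ (y w' : List (Fin n)) (τ : St a), w = y ++ w' ∧ Valid a τ w' R ∧
      mv a y * lp a τ = lp a (some p) * Coprod.inl (FreeMonoid.of x) * Coprod.inr h ∧
      (y = [] ∨ ∃ i σ, Zero a σ ∧ y = i :: σ) := by
  obtain ⟨s, rfl, hs⟩ := hv
  obtain ⟨i, k, hk⟩ := p
  simp only at hs ⊢
  rw [List.drop_eq_getElem_cons hk] at hs
  set c := (tl a i)[k] with hc
  simp only [lact, xact, gact, Prod.mk.injEq, true_and, List.cons.injEq] at hs
  obtain ⟨⟨hx, hh⟩, hR⟩ := hs
  have htake : el ((tl a i).take (k + 1)) =
      el ((tl a i).take k) * (Coprod.inl (FreeMonoid.of x) * Coprod.inr c.2) := by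
    rw [List.take_succ_eq_append_getElem hk, el_append, ← hc, ← hx]
    simp [el]
  by_cases hk1 : k + 1 < (tl a i).length
  · -- the next letter is in the same generator
    have hne : (tl a i).drop (k + 1) ≠ [] := by
      intro h
      rw [List.drop_eq_nil_iff] at h
      omega
    have h1 := lact_ne_nil _ hne (nw a s)
    refine ⟨[], i :: s, some ⟨i, ⟨k + 1, hk1⟩⟩, rfl, ⟨s, rfl, Prod.ext h1 hR⟩, ?_, Or.inl rfl⟩
    rw [h1, mul_one] at hh
    simp only [mv_nil, one_mul, lp]
    rw [htake, hh]
    simp only [mul_assoc]
  · have hk2 : k + 1 = (tl a i).length := by omega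
    have hdrop : (tl a i).drop (k + 1) = [] := List.drop_eq_nil_iff.2 (by omega)
    rw [hdrop] at hh hR
    simp only [lact] at hh hR
    obtain ⟨σ, w, τ, h1, rfl, h2, h3⟩ := start a s
    rw [hR] at h2
    refine ⟨i :: σ, w, τ, rfl, h2, ?_, Or.inr ⟨i, σ, h1, rfl⟩⟩
    have hfull : (tl a i).take (k + 1) = tl a i := by
      rw [hk2, List.take_length]
    rw [mv_cons, mul_assoc, h3, a_eq a i, ← hh, map_mul, lp]
    rw [hfull] at htake
    rw [htake]
    simp only [mul_assoc]

end Words

end Pool.Agent.H687R3.MC
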