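import Mathlib
import Pool.Agent.H687R3.MC.NF

/-!
Free products of a free monoid and a virtually nilpotent group are Malcev coherent.
-/

set_option autoImplicit false

namespace Pool.Agent.H687R3.MC

open Monoid Pool.Agent.Helper45 Subgroup

universe u v

section Emb

variable {X : Type u} {G : Type v} [Group G]

/-- forget the names of the letters -/
def forget : Coprod (FreeMonoid X) G →* Coprod (FreeMonoid Unit) G :=
  Coprod.map (FreeMonoid.map (fun _ => ())) (MonoidHom.id G)

/-- the letters -/
def letters : Coprod (FreeMonoid X) G →* FreeGroup X :=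
  Coprod.lift (FreeMonoid.lift FreeGroup.of) 1

lemma forget_el (L : List (X × G)) :
    forget (el L) = el (L.map (fun p => ((), p.2))) := by
  induction L with
  | nil => simp [el]
  | cons p L ih =>
    simp only [el, map_mul, ih, List.map_cons]
    congr 1

lemma forget_ev (m : NFo X G) :
    forget (ev m) = ev (m.1, m.2.map (fun p => ((), p.2))) := by
  simp only [ev, map_mul, forget_el]
  congr 1

lemma letters_el (L : List (X × G)) :
    letters (el L) = pos (L.map Prod.fst) := by
  induction L with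
  | nil => simp [el]
  | cons p L ih =>
    simp only [el, map_mul, ih, List.map_cons, pos_cons]
    simp [letters]

lemma nf_ev (m : NFo X G) : nf (ev m) = m := by
  rw [nf, act_ev]
  have h : ∀ L : List (X × G), lact L ((1 : G), ([] : List (X × G))) = (1, L) := by
    intro L
    induction L with
    | nil => rfl
    | cons p L ih => rw [lact, ih]; simp [gact, xact]
  rw [h]
  simp [gact]

lemma toWord_pos' {B : Type*} [DecidableEq B] (l : List B) :
    (pos l).toWord = l.map (fun b => (b, true)) := by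
  induction l with
  | nil => simp
  | cons x l ih =>
    rw [pos_cons, FreeGroup.toWord_mul, ih, FreeGroup.toWord_of]
    apply FreeGroup.IsReduced.reduce_eq
    show FreeGroup.IsReduced (List.map (fun b => (b, true)) (x :: l))
    rw [FreeGroup.IsReduced]
    apply List.Pairwise.isChain
    rw [List.pairwise_map]
    exact List.pairwise_of_forall (fun _ _ _ => rfl)

lemma pos_injective' {A : Type*} : Function.Injective (pos : List A → FreeGroup A) := by
  classical
  intro l l' h
  have := congrArg FreeGroup.toWord h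
  rw [toWord_pos', toWord_pos'] at this
  exact List.map_injective_iff.2 (fun a b hab => (Prod.mk.inj hab).1) this

/-- the embedding in a group -/
def emb : Coprod (FreeMonoid X) G →* (Equiv.Perm (ℤ → G) × Multiplicative ℤ) × FreeGroup X :=
  ((embG G).comp forget).prod letters

theorem emb_injective : Function.Injective (emb (X := X) (G := G)) := by
  intro p q h
  have h1 : embG G (forget p) = embG G (forget q) := congrArg Prod.fst h
  have h2 : letters p = letters q := congrArg Prod.snd h
  have h3 := embG_injective h1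
  rw [← ev_nf p, ← ev_nf q] at h2 h3
  rw [forget_ev, forget_ev] at h3
  have h4 := congrArg nf h3
  rw [nf_ev, nf_ev] at h4
  have h5 : letters (ev (nf p)) = pos ((nf p).2.map Prod.fst) := by
    rw [ev, map_mul, letters_el]; simp [letters]
  have h6 : letters (ev (nf q)) = pos ((nf q).2.map Prod.fst) := by
    rw [ev, map_mul, letters_el]; simp [letters]
  rw [h5, h6] at h2
  have h7 := pos_injective' h2
  simp only [Prod.mk.injEq] at h4
  obtain ⟨h8, h9⟩ := h4
  have h10 : (nf p).2.map Prod.snd = (nf q).2.map Prod.snd := by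
    have := congrArg (List.map Prod.snd) h9
    rw [List.map_map, List.map_map] at this
    exact this
  apply nf_injective
  refine Prod.ext h8 ?_
  have hz : ∀ L L' : List (X × G), L.map Prod.fst = L'.map Prod.fst →
      L.map Prod.snd = L'.map Prod.snd → L = L' := by
    intro L
    induction L with
    | nil =>
      intro L' h _
      cases L' with
      | nil => rfl
      | cons _ _ => simp at h
    | cons p L ih =>
      intro L' h h'
      cases L' with
      | nil => simp at h
      | cons p' L' =>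
        simp only [List.map_cons, List.cons.injEq] at h h'
        rw [ih L' h.2 h'.2, Prod.ext h.1 h'.1]
  exact hz _ _ h7 h10

end Emb

section Main

variable {X : Type u} {G : Type v} [Group G] {n : ℕ} (a : Fin n → Coprod (FreeMonoid X) G)

/-- an optional letter -/
def lt (α : Option (Fin n)) : FreeGroup (Fin n) :=
  match α with
  | none => 1
  | some i => FreeGroup.of i

/-- left closability of a pair of positions -/
def Clos (τ τ' : St a) : Prop := ∃ p q : List (Fin n), mv a p * lp a τ = mv a q * lp a τ'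

lemma exists_D : ∃ D : St a → St a → FreeGroup (Fin n), ∀ τ τ',
    (∃ R w w', Valid a τ w R ∧ Valid a τ' w' R) →
      ∃ R w w', Valid a τ w R ∧ Valid a τ' w' R ∧ D τ τ' = pos w * (pos w')⁻¹ := by
  have : ∀ τ τ' : St a, ∃ D : FreeGroup (Fin n), (∃ R w w', Valid a τ w R ∧ Valid a τ' w' R) →
      ∃ R w w', Valid a τ w R ∧ Valid a τ' w' R ∧ D = pos w * (pos w')⁻¹ := by
    intro τ τ'
    by_cases h : ∃ R w w', Valid a τ w R ∧ Valid a τ' w' R
    · obtain ⟨R, w, w', h1, h2⟩ := h
      exact ⟨pos w * (pos w')⁻¹, fun _ => ⟨R, w, w', h1, h2, rfl⟩⟩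
    · exact ⟨1, fun h' => absurd h' h⟩
  choose D hD using this
  exact ⟨D, hD⟩

variable {Γ : Type*} [Group Γ] (j : Coprod (FreeMonoid X) G →* Γ)

lemma val_j (l : List (Fin n)) : val (fun i => j (a i)) l = j (mv a l) := by
  induction l with
  | nil => simp
  | cons i l ih => simp [ih]

lemma mv_zero {m : ℕ} (e : Fin m → Fin n) (he : ∀ k, tl a (e k) = []) (l : List (Fin m)) :
    mv a (l.map e) = Coprod.inr (val (fun k => hd a (e k)) l) := by
  induction l with
  | nil => simp
  | cons k l ih =>
    rw [List.map_cons, mv_cons, ih, a_eq a (e k), he k]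
    simp [el]

lemma map_pos {m : ℕ} (e : Fin m → Fin n) (l : List (Fin m)) :
    FreeGroup.map e (pos l) = pos (l.map e) := by
  induction l with
  | nil => simp
  | cons k l ih => simp [ih]

theorem finRel (hj : Function.Injective j) (hG : VN G) (hFR : FR G) :
    FinRel (fun i => j (a i)) := by
  classical
  set N := normalClosure (Rel (fun i => j (a i))) with hN
  set Q := QuotientGroup.mk' N with hQ
  have hQeq : ∀ {s t : List (Fin n)}, mv a s = mv a t → Q (pos s) = Q (pos t) := by
    intro s t h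
    apply q_eq
    rw [val_j, val_j, h]
  -- the letters of length zero
  obtain ⟨m, ⟨eq⟩⟩ := Finite.exists_equiv_fin {i : Fin n // tl a i = []}
  let e : Fin m → Fin n := fun k => (eq.symm k).1
  have he : ∀ k, tl a (e k) = [] := fun k => (eq.symm k).2
  have hsurj : ∀ σ : List (Fin n), Zero a σ → ∃ l : List (Fin m), σ = l.map e := by
    intro σ hσ
    induction σ with
    | nil => exact ⟨[], rfl⟩
    | cons i σ ih =>
      obtain ⟨l, rfl⟩ := ih (fun i hi => hσ i (List.mem_cons_of_mem _ hi))
      refine ⟨eq ⟨i, hσ i List.mem_cons_self⟩ :: l, ?_⟩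
      rw [List.map_cons]
      simp [e]
  let φ : FreeGroup (Fin m) →* G := FreeGroup.lift (fun k => hd a (e k))
  let ζ : FreeGroup (Fin m) →* FreeGroup (Fin n) := FreeGroup.map e
  have hNS := NS_range_prod hG φ
  obtain ⟨D, hD⟩ := exists_D a
  -- the value of the canonical fraction in the universal group
  have Qfact : ∀ {τ τ' : St a} {w w' : List (Fin n)} {R : List (X × G)},
      Valid a τ w R → Valid a τ' w' R → Clos a τ τ' →
        Q (pos w) * (Q (pos w'))⁻¹ = Q (D τ τ') := by
    intro τ τ' w w' R h1 h2 ⟨p, q, hpq⟩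
    obtain ⟨R₀, w₀, w₀', k1, k2, k3⟩ := hD τ τ' ⟨R, w, w', h1, h2⟩
    have key : ∀ {w w' : List (Fin n)} {R : List (X × G)},
        Valid a τ w R → Valid a τ' w' R →
          Q (pos w) * (Q (pos w'))⁻¹ = (Q (pos p))⁻¹ * Q (pos q) := by
      intro w w' R h1 h2
      have : mv a (p ++ w) = mv a (q ++ w') := by
        rw [mv_append, mv_append, h1.mv_eq, h2.mv_eq, ← mul_assoc, ← mul_assoc, hpq]
      have h3 := hQeq this
      rw [pos_append, pos_append, map_mul, map_mul] at h3
      rw [mul_inv_eq_iff_eq_mul, mul_assoc, ← h3]; group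
    rw [key h1 h2, k3, map_mul, map_inv, key k1 k2]
  -- finite bases
  have hbasis : ∀ t : (St a × St a) × (St a × St a) × (Option (Fin n) × Option (Fin n)),
      ∃ E : Set (FreeGroup (Fin n)), E.Finite ∧ E ⊆ N ∧
      ∀ (M : Subgroup (FreeGroup (Fin n))) [M.Normal], E ⊆ M → (∀ x, φ x = 1 → ζ x ∈ M) →
        ∀ u v : FreeGroup (Fin m),
          ζ u * D t.1.1 t.1.2 * (ζ v)⁻¹ *
            ((lt t.2.2.1)⁻¹ * D t.2.1.1 t.2.1.2 * lt t.2.2.2)⁻¹ ∈ N →
          ζ u * D t.1.1 t.1.2 * (ζ v)⁻¹ *
            ((lt t.2.2.1)⁻¹ * D t.2.1.1 t.2.1.2 * lt t.2.2.2)⁻¹ ∈ M :=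
    fun t => finite_basis N ζ φ hNS _ _
  choose E hE1 hE2 hE3 using hbasis
  obtain ⟨E₀, hE₀f, hE₀1, hE₀2⟩ := hFR m (fun k => hd a (e k))
  let F : Set (FreeGroup (Fin n)) := ζ '' E₀ ∪ ⋃ t, E t
  have hFf : F.Finite := (hE₀f.image _).union (Set.finite_iUnion hE1)
  have hFN : F ⊆ N := by
    apply Set.union_subset
    · rintro _ ⟨r, hr, rfl⟩
      obtain ⟨s, t, hs, ht, hst, rfl⟩ := hE₀1 hr
      apply subset_normalClosure
      refine ⟨s.map e, t.map e, by simpa using hs, by simpa using ht, ?_, ?_⟩
      · rw [val_j, val_j, mv_zero a e he, mv_zero a e he, hst]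
      · show FreeGroup.map e _ = _
        rw [map_mul, map_inv, map_pos, map_pos]
    · exact Set.iUnion_subset hE2
  refine finRel_of_finite _ F hFf hFN ?_
  set M := normalClosure F with hM
  set Q₀ := QuotientGroup.mk' M with hQ₀
  have hE3' : ∀ t, E t ⊆ M := fun t =>
    (Set.subset_iUnion E t).trans (Set.subset_union_right.trans subset_normalClosure)
  have hker : ∀ x, φ x = 1 → ζ x ∈ M := by
    intro x hx
    have h1 := ker_le (fun k => hd a (e k)) (ore_of_VN hG _) x hx
    have h2 : x ∈ normalClosure E₀ := normalClosure_le_normal hE₀2 h1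
    have h3 : normalClosure E₀ ≤ M.comap ζ := by
      apply normalClosure_le_normal
      intro y hy
      exact subset_normalClosure (Or.inl ⟨y, hy, rfl⟩)
    exact h3 h2
  -- transfer
  have trans : ∀ (τ τ' υ υ' : St a) (α β : Option (Fin n)) (σ σ' : List (Fin n)),
      Zero a σ → Zero a σ' →
      Q (pos σ) * Q (D τ τ') * (Q (pos σ'))⁻¹ = (Q (lt α))⁻¹ * Q (D υ υ') * Q (lt β) →
      Q₀ (pos σ) * Q₀ (D τ τ') * (Q₀ (pos σ'))⁻¹ =
        (Q₀ (lt α))⁻¹ * Q₀ (D υ υ') * Q₀ (lt β) := by
    intro τ τ' υ υ' α β σ σ' hσ hσ' h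
    obtain ⟨l, rfl⟩ := hsurj σ hσ
    obtain ⟨l', rfl⟩ := hsurj σ' hσ'
    have h1 := hE3 ((τ, τ'), (υ, υ'), (α, β)) M (hE3' _) hker (pos l) (pos l')
    have e1 : ζ (pos l) = pos (l.map e) := map_pos e l
    have e2 : ζ (pos l') = pos (l'.map e) := map_pos e l'
    rw [e1, e2] at h1
    have h2 := h1 (by
      apply (QuotientGroup.eq_one_iff _).1
      show Q _ = 1
      rw [map_mul, map_inv, mul_inv_eq_one]
      simp only [map_mul, map_inv]
      exact h)
    have h3 : Q₀ _ = 1 := (QuotientGroup.eq_one_iff _).2 h2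
    rw [map_mul, map_inv, mul_inv_eq_one] at h3
    simpa only [map_mul, map_inv] using h3
  have main : ∀ (R : List (X × G)) (τ τ' : St a) (w w' : List (Fin n)),
      Valid a τ w R → Valid a τ' w' R → Clos a τ τ' →
        Q₀ (pos w) * (Q₀ (pos w'))⁻¹ = Q₀ (D τ τ') := by
    intro R
    induction R with
    | nil =>
      intro τ τ' w w' h1 h2 _
      cases τ with
      | some p => exact absurd rfl h1.cons_iff
      | none =>
      cases τ' with
      | some p => exact absurd rfl h2.cons_iff
      | none =>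
        obtain ⟨R₀, w₀, w₀', ⟨k1, -⟩, ⟨k2, -⟩, k3⟩ := hD none none ⟨[], w, w', h1, h2⟩
        obtain ⟨rfl, -⟩ := h1
        obtain ⟨rfl, -⟩ := h2
        rw [k3, k1, k2]; simp
    | cons c R ih =>
      intro τ τ' w w' h1 h2 hcl
      cases τ with
      | none => exact absurd h1.2 (by simp)
      | some P =>
      cases τ' with
      | none => exact absurd h2.2 (by simp)
      | some P' =>
        obtain ⟨x, h⟩ := c
        obtain ⟨y, w₁, τ₁, rfl, v1, s1, t1⟩ := step a P w x h R h1
        obtain ⟨y', w₁', τ₁', rfl, v1', s1', t1'⟩ := step a P' w' x h R h2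
        have hcl' : Clos a τ₁ τ₁' := by
          obtain ⟨p, q, hpq⟩ := hcl
          refine ⟨p ++ y, q ++ y', ?_⟩
          rw [mv_append, mv_append, mul_assoc, mul_assoc, s1, s1', ← mul_assoc, ← mul_assoc,
            ← mul_assoc, ← mul_assoc, hpq]
        have hi := ih τ₁ τ₁' w₁ w₁' v1 v1' hcl'
        have hq := Qfact v1 v1' hcl'
        have hq' := Qfact h1 h2 hcl
        -- normal shape of `y`, `y'`
        have shape : ∀ y : List (Fin n), (y = [] ∨ ∃ i σ, Zero a σ ∧ y = i :: σ) →
            ∃ (α : Option (Fin n)) (σ : List (Fin n)), Zero a σ ∧ pos y = lt α * pos σ := by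
          rintro y (rfl | ⟨i, σ, hσ, rfl⟩)
          · exact ⟨none, [], by simp [Zero], by simp [lt]⟩
          · exact ⟨some i, σ, hσ, by simp [lt]⟩
        obtain ⟨α, σ, hσ, hy⟩ := shape y t1
        obtain ⟨β, σ', hσ', hy'⟩ := shape y' t1'
        have hgoal := trans τ₁ τ₁' (some P) (some P') α β σ σ' hσ hσ' (by
          rw [← hq, ← hq', pos_append, pos_append, hy, hy']
          simp only [map_mul]
          group)
        rw [pos_append, pos_append, hy, hy']
        simp only [map_mul]
        calc Q₀ (lt α) * Q₀ (pos σ) * Q₀ (pos w₁) *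
              (Q₀ (lt β) * Q₀ (pos σ') * Q₀ (pos w₁'))⁻¹
            = Q₀ (lt α) * (Q₀ (pos σ) * (Q₀ (pos w₁) * (Q₀ (pos w₁'))⁻¹) * (Q₀ (pos σ'))⁻¹) *
                (Q₀ (lt β))⁻¹ := by group
          _ = Q₀ (lt α) * ((Q₀ (lt α))⁻¹ * Q₀ (D (some P) (some P')) * Q₀ (lt β)) *
                (Q₀ (lt β))⁻¹ := by rw [hi, hgoal]
          _ = Q₀ (D (some P) (some P')) := by group
  rintro r ⟨s, t, -, -, hst, rfl⟩
  rw [val_j, val_j] at hst
  have hst' := hj hst
  have hnw : nw a s = nw a t := by rw [nw, nw, hst']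
  obtain ⟨σ, w, τ, z1, rfl, v1, s1⟩ := start a s
  obtain ⟨σ', w', τ', z1', rfl, v1', s1'⟩ := start a t
  rw [hnw] at v1 s1
  have hcl : Clos a τ τ' := ⟨σ, σ', by rw [s1, s1']⟩
  have hi := main _ τ τ' w w' v1 v1' hcl
  have hq := Qfact v1 v1' hcl
  have hD1 : D none none = 1 := by
    obtain ⟨R₀, w₀, w₀', ⟨k1, -⟩, ⟨k2, -⟩, k3⟩ := hD none none ⟨[], [], [], ⟨rfl, rfl⟩, ⟨rfl, rfl⟩⟩
    rw [k3, k1, k2]; simp
  have hgoal := trans τ τ' none none none none σ σ' z1 z1' (by
    have h1 := hQeq hst'
    rw [pos_append, pos_append, map_mul, map_mul] at h1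
    rw [← hq, hD1]
    simp only [lt, map_one, inv_one, mul_one]
    rw [← mul_assoc, h1]; group)
  apply (QuotientGroup.eq_one_iff _).1
  show Q₀ _ = 1
  rw [pos_append, pos_append]
  rw [← hi, hD1] at hgoal
  simp only [lt, map_one, inv_one, mul_one] at hgoal
  rw [map_mul, map_inv, map_mul, map_mul, ← hgoal]
  group

end Main

end Pool.Agent.H687R3.MC
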