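import Mathlib
import Pool.Agent.H687R3.MC.Main

/-!
The theorem on Malcev coherence of free products of a free monoid and a virtually nilpotent
group.
-/

set_option autoImplicit false

namespace Pool.Agent.H687R3.MC

open Monoid Pool.Agent.Helper45 Subgroup

universe u v

theorem malcev_of_finRel {M : Type*} [Monoid M] {Γ : Type*} [Group Γ] (j : M →* Γ)
    (hj : Function.Injective j) (h : ∀ (n : ℕ) (a : Fin n → M), FinRel (fun i => j (a i))) :
    MalcevCoherent M := by
  classical
  rintro S ⟨T, hT, rfl⟩
  have : Finite T := hT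
  obtain ⟨n, ⟨e⟩⟩ := Finite.exists_equiv_fin T
  let a : Fin n → M := fun i => (e.symm i : T)
  let ι : Fin n → Subsemigroup.closure T := fun i =>
    ⟨a i, Subsemigroup.subset_closure (e.symm i).2⟩
  have hι : ∀ w : FreeSemigroup (Fin n),
      j ((FreeSemigroup.lift ι w : Subsemigroup.closure T) : M) =
        val (fun i => j (a i)) (w.head :: w.tail) := by
    intro w
    rw [← lift_eq_val]
    induction w using FreeSemigroup.recOnMul with
    | ih1 x => rfl
    | ih2 x y hx hy => rw [map_mul, map_mul, MulMemClass.coe_mul, map_mul, hx, hy]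
  obtain ⟨E, hEf, hE1, hE2⟩ := h n a
  have hchoice : ∀ r : E, ∃ p : FreeSemigroup (Fin n) × FreeSemigroup (Fin n),
      val (fun i => j (a i)) (p.1.head :: p.1.tail) =
        val (fun i => j (a i)) (p.2.head :: p.2.tail) ∧
        (r : FreeGroup (Fin n)) = posWord p.1 * (posWord p.2)⁻¹ := by
    rintro ⟨r, hr⟩
    obtain ⟨u, v, hu, hv, huv, hr'⟩ := hE1 hr
    obtain ⟨x, rfl⟩ := exists_word u hu
    obtain ⟨y, rfl⟩ := exists_word v hv
    exact ⟨(x, y), huv, by rw [posWord_eq, posWord_eq]; exact hr'⟩
  choose p hp1 hp2 using hchoice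
  have : Finite E := hEf
  have hEρ : E ⊆ relators (Set.range p) := fun r hr => ⟨p ⟨r, hr⟩, ⟨_, rfl⟩, hp2 ⟨r, hr⟩⟩
  refine ⟨n, ι, Set.range p, Set.finite_range p, ?_, ?_⟩
  · have : Set.range ι = ((↑) : Subsemigroup.closure T → M) ⁻¹' T := by
      ext x
      constructor
      · rintro ⟨i, rfl⟩; exact (e.symm i).2
      · intro hx
        exact ⟨e ⟨x, hx⟩, Subtype.ext (by simp [ι, a])⟩
    rw [this]
    exact Subsemigroup.closure_closure_coe_preimage
  · intro x y
    constructor
    · intro hxy
      have h2 : posWord x * (posWord y)⁻¹ ∈ normalClosure (relators (Set.range p)) := by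
        refine (normalClosure_mono hEρ) (hE2 ⟨x.head :: x.tail, y.head :: y.tail,
          by simp, by simp, ?_, ?_⟩)
        · rw [← hι, ← hι, hxy]
        · rw [posWord_eq, posWord_eq]
      have h3 : PresentedGroup.mk (relators (Set.range p)) (posWord x * (posWord y)⁻¹) = 1 :=
        (QuotientGroup.eq_one_iff _).2 h2
      rw [map_mul, map_inv] at h3
      exact mul_inv_eq_one.1 h3
    · intro hxy
      have h3 : PresentedGroup.mk (relators (Set.range p)) (posWord x * (posWord y)⁻¹) = 1 := by
        rw [map_mul, map_inv]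
        exact mul_inv_eq_one.2 hxy
      have h2 : posWord x * (posWord y)⁻¹ ∈ normalClosure (relators (Set.range p)) :=
        (QuotientGroup.eq_one_iff _).1 h3
      have h4 : normalClosure (relators (Set.range p)) ≤
          (FreeGroup.lift (fun i => j (a i))).ker := by
        apply normalClosure_le_normal
        rintro r ⟨_, ⟨r', rfl⟩, rfl⟩
        have := hp1 r'
        show FreeGroup.lift (fun i => j (a i)) (posWord (p r').1 * (posWord (p r').2)⁻¹) = 1
        rw [posWord_eq, posWord_eq]
        simp only [map_mul, map_inv, lift_pos]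
        rw [this, mul_inv_cancel]
      have h5 : FreeGroup.lift (fun i => j (a i)) (posWord x * (posWord y)⁻¹) = 1 := h4 h2
      rw [posWord_eq, posWord_eq] at h5
      simp only [map_mul, map_inv, lift_pos] at h5
      apply Subtype.ext
      apply hj
      rw [hι, hι]
      exact mul_inv_eq_one.1 h5

lemma Rel_comp {A : Type*} {V V' : Type*} [Group V] [Group V'] (f : V →* V')
    (hf : Function.Injective f) (b : A → V) : Rel (fun i => f (b i)) = Rel b := by
  have h : ∀ l : List A, val (fun i => f (b i)) l = f (val b l) := by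
    intro l
    induction l with
    | nil => simp
    | cons x l ih => simp [ih]
  ext r
  constructor
  · rintro ⟨s, t, hs, ht, hst, rfl⟩
    rw [h, h] at hst
    exact ⟨s, t, hs, ht, hf hst, rfl⟩
  · rintro ⟨s, t, hs, ht, hst, rfl⟩
    exact ⟨s, t, hs, ht, by rw [h, h, hst], rfl⟩

/-- virtually nilpotent groups -/
theorem FR_of_VN {G : Type u} [Group G] (hG : VN G) : FR G := by
  have h := FR_prod (FreeGroup Empty) G ⟨⊤, inferInstance, inferInstance⟩ hG
  intro n b
  have h1 := h n (fun i => MonoidHom.inr (FreeGroup Empty) G (b i))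
  unfold FinRel at h1 ⊢
  rwa [Rel_comp (MonoidHom.inr (FreeGroup Empty) G) (fun x y hxy => congrArg Prod.snd hxy)] at h1

/-- The monoid free product of a free monoid and a virtually nilpotent group is Malcev
coherent. -/
theorem malcevCoherent_coprod (X : Type u) (G : Type v) [Group G] (hG : VN G) :
    MalcevCoherent (Coprod (FreeMonoid X) G) :=
  malcev_of_finRel emb emb_injective
    (fun _ a => finRel a emb emb_injective hG (FR_of_VN hG))

end Pool.Agent.H687R3.MC
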